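import Pool.Agent.K7.H61.SS.Main

/-!
# Triangle-free graphs without an induced `r`-sunshade: the chromatic number

Let `r ≥ 3` and let `G` be a connected, triangle-free, `r`-sunshade-free finite graph with maximum degree at
least `r`.  Then `χ(G) ≤ r - 1`.  In particular no graph in the class `𝒢_r` of the question, `r ≥ 5`, is
`r`-chromatic.

Proof.  As `G` is triangle-free, it has no induced `r`-sunshade if and only if
`|N(v) ∖ N(x)| ≤ r - 2` for all `v`, `x` at distance two.  Let `X` be a maximal set of vertices of degree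
at least `r` such that `I = N(X)` is independent, and let `L_i` be the set of the vertices at distance `i`
from `X`.  The vertices of `I` get the colour `0`, those of `X` the colour `1`.  A vertex of `L_i`, `i ≥ 2`,
has at most `r - 2` neighbours in `L_i ∪ L_{i+1}`; so the layers `L_i`, `i ≥ 3`, can be coloured greedily,
the farthest first.  Let `L(v)`, `v ∈ L_2`, be the set of the remaining colours other than `0`; there are
at least as many as neighbours of `v` in `L_2`.  If there is no colouring of `L_2` from these lists, there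
is a nonempty union `W` of components of `L_2` where both numbers are equal.  Then the vertices of `W` have
degree at least `r`, and by the maximality of `X` they have neighbours in `W`.  If `v`, `v'` in `W`
are adjacent and `w ∈ I` is a neighbour of `v'`, then `v` and `w` are at distance two and at least two of
the neighbours of `v` in `W` are adjacent to `w`.  It follows that `W` has an even cycle with a vertex
which has only two neighbours on the cycle, and then there is a colouring from the lists, a contradiction.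
-/

set_option autoImplicit false

namespace Pool.Agent.Results.MP_45b11a_co.NoChromaticExample

open Finset Pool.Agent.K7.H61.SS

/-- The `r`-sunshade: the centre `0` is adjacent to the vertices `1, …, r`, and `r` is adjacent to `r + 1`.
It is the star with centre `0` and the `r` leaves `1, …, r - 1, r + 1` whose edge from `0` to `r + 1` is
subdivided by the vertex `r`. -/
def sunshade (r : ℕ) : SimpleGraph (Fin (r + 2)) :=
  SimpleGraph.fromRel fun a b => (a.val = 0 ∧ 1 ≤ b.val ∧ b.val ≤ r) ∨ (a.val = r ∧ b.val = r + 1)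

/-- The class `𝒢_r` of the connected, triangle-free, `r`-sunshade-free graphs `G` with
`r ≤ Δ(G) ≤ 2 r - 4`. -/
structure InClass (r : ℕ) {V : Type} [Fintype V] (G : SimpleGraph V) [DecidableRel G.Adj] : Prop where
  connected : G.Connected
  triangleFree : G.CliqueFree 3
  sunshadeFree : ¬ (sunshade r).IsIndContained G
  le_maxDegree : r ≤ G.maxDegree
  maxDegree_le : G.maxDegree ≤ 2 * r - 4

theorem no_triangle {V : Type} {G : SimpleGraph V} (h : G.CliqueFree 3) (a b c : V) (hab : G.Adj a b)
    (hbc : G.Adj b c) : ¬ G.Adj a c := by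
  classical
  intro hac
  exact h {a, b, c} (SimpleGraph.is3Clique_triple_iff.2 ⟨hab, hac, hbc⟩)

/-- in a triangle-free graph without an induced sunshade two vertices at distance two have many common
neighbours -/
theorem common (k : ℕ) {V : Type} [Fintype V] [DecidableEq V] (G : SimpleGraph V) [DecidableRel G.Adj]
    (htri : ∀ a b c, G.Adj a b → G.Adj b c → ¬ G.Adj a c)
    (hsun : ¬ (sunshade (k + 2)).IsIndContained G) (v x w : V) (hvx : v ≠ x) (hvw : G.Adj v w)
    (hwx : G.Adj w x) : #(G.neighborFinset v \ G.neighborFinset x) ≤ k := by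
  by_contra hcon
  push Not at hcon
  apply hsun
  obtain ⟨s, hcard, hs⟩ : ∃ s : Finset V, k + 1 ≤ #s ∧ ∀ u ∈ s, G.Adj v u ∧ ¬ G.Adj x u := by
    refine ⟨G.neighborFinset v \ G.neighborFinset x, hcon, fun u hu => ?_⟩
    rwa [mem_sdiff, SimpleGraph.mem_neighborFinset, SimpleGraph.mem_neighborFinset] at hu
  let e : Fin (k + 1) → V := fun i => (s.equivFin.symm (Fin.castLE hcard i)).1
  have he : ∀ i, G.Adj v (e i) ∧ ¬ G.Adj x (e i) := fun i =>
    hs _ (s.equivFin.symm (Fin.castLE hcard i)).2
  have heinj : Function.Injective e := by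
    intro i j h
    have h1 := s.equivFin.symm.injective (Subtype.ext h)
    exact Fin.castLE_injective hcard h1
  have hnvx : ¬ G.Adj v x := htri _ _ _ hvw hwx
  let φ : Fin (k + 2 + 2) → V := fun a =>
    if a.val = 0 then v else if h : a.val - 1 < k + 1 then e ⟨a.val - 1, h⟩ else
      if a.val = k + 2 then w else x
  have hφ0 : ∀ a : Fin (k + 2 + 2), a.val = 0 → φ a = v := fun a ha => if_pos ha
  have hφ1 : ∀ a : Fin (k + 2 + 2), ∀ (h0 : a.val ≠ 0) (h1 : a.val - 1 < k + 1),
      φ a = e ⟨a.val - 1, h1⟩ := by
    intro a h0 h1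
    show (if a.val = 0 then v else if h : a.val - 1 < k + 1 then e ⟨a.val - 1, h⟩ else
      if a.val = k + 2 then w else x) = _
    rw [if_neg h0, dif_pos h1]
  have hφ2 : ∀ a : Fin (k + 2 + 2), a.val = k + 2 → φ a = w := by
    intro a ha
    show (if a.val = 0 then v else if h : a.val - 1 < k + 1 then e ⟨a.val - 1, h⟩ else
      if a.val = k + 2 then w else x) = _
    rw [if_neg (by omega), dif_neg (by omega), if_pos ha]
  have hφ3 : ∀ a : Fin (k + 2 + 2), a.val = k + 3 → φ a = x := by
    intro a ha
    show (if a.val = 0 then v else if h : a.val - 1 < k + 1 then e ⟨a.val - 1, h⟩ else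
      if a.val = k + 2 then w else x) = _
    rw [if_neg (by omega), dif_neg (by omega), if_neg (by omega)]
  have hxe : ∀ i, e i ≠ x := fun i h => hnvx (h ▸ (he i).1)
  have hwe : ∀ i, e i ≠ w := fun i h => (he i).2 (h ▸ hwx.symm)
  have key : ∀ a b : Fin (k + 2 + 2), a.val < b.val → φ a ≠ φ b ∧
      (G.Adj (φ a) (φ b) ↔ (a.val = 0 ∧ b.val ≤ k + 2) ∨ (a.val = k + 2 ∧ b.val = k + 3)) := by
    intro a b hab
    have hb4 := b.isLt
    by_cases ha0 : a.val = 0
    · rw [hφ0 a ha0]
      by_cases hb1 : b.val - 1 < k + 1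
      · rw [hφ1 b (by omega) hb1]
        exact ⟨(he _).1.ne, iff_of_true (he _).1 (Or.inl ⟨ha0, by omega⟩)⟩
      · by_cases hb2 : b.val = k + 2
        · rw [hφ2 b hb2]
          exact ⟨hvw.ne, iff_of_true hvw (Or.inl ⟨ha0, by omega⟩)⟩
        · rw [hφ3 b (by omega)]
          exact ⟨hvx, iff_of_false hnvx (by omega)⟩
    · by_cases ha1 : a.val - 1 < k + 1
      · rw [hφ1 a ha0 ha1]
        by_cases hb1 : b.val - 1 < k + 1
        · rw [hφ1 b (by omega) hb1]
          refine ⟨fun h => ?_, iff_of_false (htri _ _ _ (he _).1.symm (he _).1) (by omega)⟩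
          have := congrArg Fin.val (heinj h)
          simp only at this
          omega
        · by_cases hb2 : b.val = k + 2
          · rw [hφ2 b hb2]
            exact ⟨hwe _, iff_of_false (htri _ _ _ (he _).1.symm hvw) (by omega)⟩
          · rw [hφ3 b (by omega)]
            exact ⟨hxe _, iff_of_false (fun h => (he _).2 h.symm) (by omega)⟩
      · have ha2 : a.val = k + 2 := by omega
        have hb3 : b.val = k + 3 := by omega
        rw [hφ2 a ha2, hφ3 b hb3]
        exact ⟨hwx.ne, iff_of_true hwx (Or.inr ⟨ha2, hb3⟩)⟩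
  have hinj : Function.Injective φ := by
    intro a b hab
    by_contra hne
    rcases Nat.lt_or_gt_of_ne (fun h => hne (Fin.ext h)) with h | h
    · exact (key a b h).1 hab
    · exact (key b a h).1 hab.symm
  refine ⟨⟨⟨φ, hinj⟩, ?_⟩⟩
  intro a b
  show G.Adj (φ a) (φ b) ↔ (sunshade (k + 2)).Adj a b
  rw [sunshade, SimpleGraph.fromRel_adj]
  rcases Nat.lt_trichotomy a.val b.val with h | h | h
  · rw [(key a b h).2]
    have hne : a ≠ b := fun h' => by rw [h'] at h; omega
    constructor
    · intro h'
      refine ⟨hne, Or.inl ?_⟩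
      omega
    · rintro ⟨-, h'⟩
      omega
  · have heq : a = b := Fin.ext h
    subst heq
    exact iff_of_false (G.loopless.irrefl _) (fun h' => h'.1 rfl)
  · rw [G.adj_comm, (key b a h).2]
    have hne : a ≠ b := fun h' => by rw [h'] at h; omega
    constructor
    · intro h'
      refine ⟨hne, Or.inr ?_⟩
      omega
    · rintro ⟨-, h'⟩
      omega

/-- **Main result.**  A connected, triangle-free, `r`-sunshade-free finite graph with maximum degree at least
`r` is `(r - 1)`-colourable (`r ≥ 3`).  Hence there are no `r ≥ 5` and no graph in `𝒢_r` with chromatic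
number `r`; every graph in `𝒢_r` has chromatic number at most `r - 1`. -/
theorem result :
    (∀ (r : ℕ), 3 ≤ r → ∀ (V : Type) [Fintype V] (G : SimpleGraph V) [DecidableRel G.Adj],
      G.Connected → G.CliqueFree 3 → ¬ (sunshade r).IsIndContained G → r ≤ G.maxDegree →
      G.chromaticNumber ≤ ((r - 1 : ℕ) : ℕ∞)) ∧
    (∀ (r : ℕ), 5 ≤ r → ∀ (V : Type) [Fintype V] (G : SimpleGraph V) [DecidableRel G.Adj],
      InClass r G → G.chromaticNumber ≤ ((r - 1 : ℕ) : ℕ∞)) ∧
    ¬ ∃ (r : ℕ) (V : Type) (_ : Fintype V) (G : SimpleGraph V) (_ : DecidableRel G.Adj),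
      5 ≤ r ∧ InClass r G ∧ G.chromaticNumber = (r : ℕ∞) := by
  have h1 : ∀ (r : ℕ), 3 ≤ r → ∀ (V : Type) [Fintype V] (G : SimpleGraph V) [DecidableRel G.Adj],
      G.Connected → G.CliqueFree 3 → ¬ (sunshade r).IsIndContained G → r ≤ G.maxDegree →
      G.chromaticNumber ≤ ((r - 1 : ℕ) : ℕ∞) := by
    intro r hr V _ G _ hG h3 hsun hΔ
    classical
    obtain ⟨k, rfl⟩ : ∃ k, r = k + 2 := ⟨r - 2, by omega⟩
    have : Nonempty V := hG.nonempty
    obtain ⟨x₀, hx₀⟩ := G.exists_maximal_degree_vertex
    have h := core k (by omega) hG (no_triangle h3)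
      (fun v x w => common k G (no_triangle h3) hsun v x w) x₀ (by omega)
    exact SimpleGraph.chromaticNumber_le_iff_colorable.2 h
  refine ⟨h1, ?_, ?_⟩
  · intro r hr V _ G _ hG
    exact h1 r (by omega) V G hG.connected hG.triangleFree hG.sunshadeFree hG.le_maxDegree
  · rintro ⟨r, V, _, G, _, hr, hG, hχ⟩
    have h2 := h1 r (by omega) V G hG.connected hG.triangleFree hG.sunshadeFree hG.le_maxDegree
    rw [hχ] at h2
    have h3 : r ≤ r - 1 := by exact_mod_cast h2
    omega

end Pool.Agent.Results.MP_45b11a_co.NoChromaticExample
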